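import Pool.Agent.PSS.StmtsS3

set_option autoImplicit false

open scoped BigOperators PowerSeries

noncomputable section

namespace Pool.Agent.PSS.S3.H27

open Pool.Agent.PSS Pool.Agent.PSS.S3

theorem tfx (hFco : S0.FcoStmt) (hFbk : S0.FbkStmt) : TfxStmt := by
  intro ℓ _ F W E As _ _ _ _ _ _ _ ψ γ hW hper
  obtain ⟨Ω, _, _, b, c, hfr, _⟩ := hper
  letI act : MulAction W Ω :=
    MulAction.compHom Ω ((MonoidHom.id W).prod (MonoidHom.id W))
  have hfr' : Pool.Agent.PFD.D2b.FrR (cw F⟦X⟧ γ) b c := by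
    refine ⟨?_, ?_, hfr.2.2⟩
    · intro g t
      exact hfr.1 (g, g) t
    · intro g t n
      exact hfr.2.1 (g, g) t n
  have hl : ((ℓ : ℕ) : F⟦X⟧) = 0 := by
    have h1 : ((ℓ : ℕ) : F) = 0 := CharP.cast_eq_zero F ℓ
    have h2 : ((ℓ : ℕ) : F⟦X⟧) = PowerSeries.C ((ℓ : ℕ) : F) := by
      rw [map_natCast]
    rw [h2, h1, map_zero]
  have hX : ∀ (a : As) (ω : Ω), c ω ((PowerSeries.X : F⟦X⟧) • a) = 0 → c ω a = 0 := by
    intro a ω h
    rw [map_smul, smul_eq_mul] at h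
    rcases mul_eq_zero.mp h with h1 | h1
    · exact absurd h1 PowerSeries.X_ne_zero
    · exact h1
  refine ⟨?_, ?_⟩
  · intro a ha
    rw [← hfr.2.2 a]
    apply Finset.sum_eq_zero
    intro ω _
    rw [hX a ω (by rw [ha, map_zero]), zero_smul]
  · intro P a ha hXa
    apply hFbk F⟦X⟧ W As Ω (cw F⟦X⟧ γ) b c hfr' P a ha
    intro ω hω
    apply hX
    exact hFco ℓ F⟦X⟧ W As Ω (cw F⟦X⟧ γ) b c hl hW hfr' P _ hXa ω hω

end Pool.Agent.PSS.S3.H27
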