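import Pool.Agent.PSS.StmtsS2

set_option autoImplicit false

open scoped BigOperators

noncomputable section

namespace Pool.Agent.PSS.S2.H27

open Pool.Agent.PSS Pool.Agent.PSS.S2

section

variable {F V A : Type} [Field F] [CommGroup V] [Ring A] [Algebra F A]

theorem cw_ap (α : V →* A) (u : V) (a : A) : cw F α u a = α u * (a * α u⁻¹) := rfl

theorem cw_mul (α : V →* A) (u : V) (b a : A) (hb : CV α b) :
    cw F α u (b * a) = b * cw F α u a := by
  rw [cw_ap, cw_ap, mul_assoc b a, ← mul_assoc (α u) b, hb u, mul_assoc]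

theorem cw_mul' (α : V →* A) (u : V) (b a : A) (hb : CV α b) :
    cw F α u (a * b) = cw F α u a * b := by
  rw [cw_ap, cw_ap, mul_assoc a b, ← hb u⁻¹]
  simp only [mul_assoc]

theorem mem_fx (α : V →* A) (a : A) : a ∈ FxR (cw F α) ⊤ ↔ CV α a := by
  constructor
  · intro h u
    have h1 : α u * (a * α u⁻¹) = a := h u (Subgroup.mem_top u)
    calc α u * a = α u * (a * α u⁻¹) * α u := by
          rw [mul_assoc, mul_assoc a, ← map_mul, inv_mul_cancel, map_one, mul_one]
      _ = a * α u := by rw [h1]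
  · intro h u _
    show α u * (a * α u⁻¹) = a
    rw [← mul_assoc, h u, mul_assoc, ← map_mul, mul_inv_cancel, map_one, mul_one]

theorem bk_left (α : V →* A) (b n : A) (hb : CV α b) (hn : n ∈ BKR (cw F α) ⊤) :
    b * n ∈ BKR (cw F α) ⊤ := by
  refine Submodule.span_induction (p := fun n _ => b * n ∈ BKR (cw F α) ⊤) ?_ ?_ ?_ ?_ hn
  · rintro n ⟨P', S, m, h1, h2, h3, rfl⟩
    apply Submodule.subset_span
    refine ⟨P', S, b * m, h1, h2, ?_, ?_⟩
    · intro h hh
      rw [cw_mul α h b m hb, h3 h hh]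
    · rw [Finset.mul_sum]
      apply Finset.sum_congr rfl
      intro x _
      rw [cw_mul α x b m hb]
  · show b * 0 ∈ _
    rw [mul_zero]
    exact Submodule.zero_mem _
  · intro x y _ _ hx hy
    show b * (x + y) ∈ _
    rw [mul_add]
    exact Submodule.add_mem _ hx hy
  · intro c x _ hx
    show b * (c • x) ∈ _
    rw [mul_smul_comm]
    exact Submodule.smul_mem _ _ hx

theorem bk_right (α : V →* A) (b n : A) (hb : CV α b) (hn : n ∈ BKR (cw F α) ⊤) :
    n * b ∈ BKR (cw F α) ⊤ := by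
  refine Submodule.span_induction (p := fun n _ => n * b ∈ BKR (cw F α) ⊤) ?_ ?_ ?_ ?_ hn
  · rintro n ⟨P', S, m, h1, h2, h3, rfl⟩
    apply Submodule.subset_span
    refine ⟨P', S, m * b, h1, h2, ?_, ?_⟩
    · intro h hh
      rw [cw_mul' α h b m hb, h3 h hh]
    · rw [Finset.sum_mul]
      apply Finset.sum_congr rfl
      intro x _
      rw [cw_mul' α x b m hb]
  · show 0 * b ∈ _
    rw [zero_mul]
    exact Submodule.zero_mem _
  · intro x y _ _ hx hy
    show (x + y) * b ∈ _
    rw [add_mul]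
    exact Submodule.add_mem _ hx hy
  · intro c x _ hx
    show (c • x) * b ∈ _
    rw [smul_mul_assoc]
    exact Submodule.smul_mem _ _ hx

theorem cv_mul (α : V →* A) (a b : A) (ha : CV α a) (hb : CV α b) : CV α (a * b) := by
  intro v
  rw [← mul_assoc, ha v, mul_assoc, hb v, mul_assoc]

/-- the algebra map from the group algebra -/
def pa (α : V →* A) : MonoidAlgebra F V →ₐ[F] A := MonoidAlgebra.lift F A V α

theorem pa_of (α : V →* A) (v : V) : pa (F := F) α (MonoidAlgebra.of F V v) = α v := by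
  unfold pa
  exact MonoidAlgebra.lift_of _ _

theorem pa_comm (α : V →* A) (a : A) (ha : CV α a) (s : MonoidAlgebra F V) :
    pa α s * a = a * pa α s := by
  refine MonoidAlgebra.induction_on (motive := fun s => pa α s * a = a * pa α s) s ?_ ?_ ?_
  · intro v
    rw [pa_of]
    exact ha v
  · intro x y hx hy
    rw [map_add, add_mul, mul_add, hx, hy]
  · intro c x hx
    rw [map_smul, smul_mul_assoc, mul_smul_comm, hx]

theorem pa_cv (α : V →* A) (s : MonoidAlgebra F V) : CV α (pa α s) := by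
  intro v
  have h := map_mul (pa (F := F) α) (MonoidAlgebra.of F V v) s
  have h' := map_mul (pa (F := F) α) s (MonoidAlgebra.of F V v)
  rw [pa_of] at h h'
  rw [← h, ← h', mul_comm]

/-- the augmentation ideal -/
def aug (F V : Type) [Field F] [CommGroup V] : Ideal (MonoidAlgebra F V) :=
  Ideal.span (Set.range (fun u : V => MonoidAlgebra.of F V u - 1))

theorem aug_nil (ℓ : ℕ) [Fact ℓ.Prime] [CharP F ℓ] [Fintype V] (hV : IsPGroup ℓ V) :
    ∃ m : ℕ, aug F V ^ m = ⊥ := by
  have : CharP (MonoidAlgebra F V) ℓ :=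
    charP_of_injective_algebraMap (algebraMap F (MonoidAlgebra F V)).injective ℓ
  have hfg : (aug F V).FG := Submodule.fg_span (Set.finite_range _)
  have hle : aug F V ≤ nilradical (MonoidAlgebra F V) := by
    unfold aug
    rw [Ideal.span_le]
    rintro x ⟨u, rfl⟩
    show MonoidAlgebra.of F V u - 1 ∈ nilradical (MonoidAlgebra F V)
    rw [mem_nilradical]
    obtain ⟨k, hk⟩ := hV u
    refine ⟨ℓ ^ k, ?_⟩
    rw [sub_pow_char_pow, one_pow, ← map_pow, hk, map_one, sub_self]
  exact (Ideal.FG.isNilpotent_iff_le_nilradical hfg).mpr hle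

/-- generators of the powers -/
def Gn (α : V →* A) (m : ℕ) : Set A :=
  {x | ∃ s ∈ aug F V ^ m, ∃ a : A, CV α a ∧ x = pa (F := F) α s * a}

theorem gn_cv (α : V →* A) (m : ℕ) (x : A) (hx : x ∈ Submodule.span F (Gn (F := F) α m)) :
    CV α x := by
  refine Submodule.span_induction (p := fun x _ => CV α x) ?_ ?_ ?_ ?_ hx
  · rintro x ⟨s, _, a, ha, rfl⟩
    exact cv_mul α _ _ (pa_cv α s) ha
  · intro v
    rw [mul_zero, zero_mul]
  · intro x y _ _ hx hy v
    rw [mul_add, add_mul, hx v, hy v]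
  · intro c x _ hx v
    rw [mul_smul_comm, smul_mul_assoc, hx v]

theorem gn_mul (α : V →* A) (m : ℕ) (x y : A) (hx : x ∈ Submodule.span F (Gn (F := F) α m))
    (hy : y ∈ Submodule.span F (Gn (F := F) α 1)) :
    x * y ∈ Submodule.span F (Gn (F := F) α (m + 1)) := by
  have h1 : x * y ∈ Submodule.span F (Gn (F := F) α m) * Submodule.span F (Gn (F := F) α 1) :=
    Submodule.mul_mem_mul hx hy
  rw [Submodule.span_mul_span] at h1
  refine Submodule.span_mono ?_ h1
  rintro z ⟨x, ⟨s, hs, a, ha, rfl⟩, y, ⟨t, ht, b, hb, rfl⟩, rfl⟩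
  refine ⟨s * t, ?_, a * b, cv_mul α _ _ ha hb, ?_⟩
  · rw [pow_succ]
    rw [pow_one] at ht
    exact Ideal.mul_mem_mul hs ht
  · show pa α s * a * (pa α t * b) = pa α (s * t) * (a * b)
    rw [map_mul, mul_assoc (pa α s) a, ← mul_assoc a, ← pa_comm α a ha t]
    simp only [mul_assoc]

theorem ag_le (α : V →* A) : AgI F α ≤ Submodule.span F (Gn (F := F) α 1) := by
  unfold AgI
  rw [Submodule.span_le]
  rintro n ⟨u, a, ha, rfl⟩
  apply Submodule.subset_span
  refine ⟨MonoidAlgebra.of F V u - 1, ?_, a, (mem_fx α a).mp ha, ?_⟩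
  · rw [pow_one]
    exact Ideal.subset_span ⟨u, rfl⟩
  · rw [map_sub, pa_of, map_one]

end

theorem ndb : NdbStmt := by
  intro ℓ _ F V A _ _ _ _ _ _ α e hV hce hee he
  have h1 : e ∈ BKR (cw F α) ⊤ ⊔ Submodule.span F (Gn (F := F) α 1) :=
    (sup_le_sup_left (ag_le α) _) he
  have hm : ∀ m : ℕ, e ∈ BKR (cw F α) ⊤ ⊔ Submodule.span F (Gn (F := F) α (m + 1)) := by
    intro m
    induction m with
    | zero => exact h1
    | succ m ih =>
      obtain ⟨b, hb, j, hj, hbj⟩ := Submodule.mem_sup.mp ih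
      obtain ⟨b', hb', j', hj', hbj'⟩ := Submodule.mem_sup.mp h1
      have hjc : CV α j := gn_cv α _ j hj
      have h2 : e = b * e + (j * b' + j * j') := by
        calc e = e * e := hee.symm
          _ = (b + j) * e := by rw [hbj]
          _ = b * e + j * (b' + j') := by rw [add_mul, hbj']
          _ = _ := by rw [mul_add]
      rw [h2, ← add_assoc]
      apply Submodule.add_mem_sup
      · exact Submodule.add_mem _ (bk_right α e b hce hb) (bk_left α j b' hjc hb')
      · exact gn_mul α (m + 1) j j' hj hj'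
  obtain ⟨m, hm0⟩ := aug_nil (F := F) ℓ hV
  have hz : Submodule.span F (Gn (F := F) α (m + 1)) = ⊥ := by
    rw [Submodule.span_eq_bot]
    rintro x ⟨s, hs, a, _, rfl⟩
    rw [pow_succ, hm0, Ideal.bot_mul, Ideal.mem_bot] at hs
    rw [hs, map_zero, zero_mul]
  have h3 := hm m
  rw [hz, sup_bot_eq] at h3
  exact h3

end Pool.Agent.PSS.S2.H27
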