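import Pool.Agent.PSS.StmtsS5

/-!
# Row VON of squad PSS (S5): the case `V = 1`
-/

open scoped BigOperators

noncomputable section

namespace Pool.Agent.PSS.S5.H27

open Pool.Agent.PSS

theorem von : VonStmt := by
  intro F V A B _ _ _ _ _ _ α hV N
  have hsV : Subsingleton V := (Nat.card_eq_one_iff_unique.mp hV).1
  have hVV : ∀ h : V × V, h = 1 := fun h => Subsingleton.elim _ _
  have hfx : ∀ (P : Subgroup (V × V)) (a : A), a ∈ FxR (bw F α) P := by
    intro P a h _
    rw [hVV h, map_one]
    rfl
  have hbk : ∀ (P : Subgroup (V × V)) (a : A), a ∈ BKR (bw F α) P → a = 0 := by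
    intro P a ha
    have h1 : BKR (bw F α) P = ⊥ := by
      rw [eq_bot_iff]
      refine Submodule.span_le.mpr ?_
      rintro n ⟨P', S, m, hlt, _⟩
      exfalso
      refine (ne_of_lt hlt) ?_
      ext x
      rw [hVV x]
      exact ⟨fun _ => P.one_mem, fun _ => P'.one_mem⟩
    rw [h1] at ha
    exact (Submodule.mem_bot F).mp ha
  have hsM : ∀ ε : MulAut (⊤ : Subgroup V), ε = 1 := by
    intro ε
    ext x
    exact Subsingleton.elim _ _
  have hinj : Function.Injective (N.β 1) := by
    rw [← LinearMap.ker_eq_bot, LinearMap.ker_eq_bot']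
    intro a ha
    exact hbk _ a ((N.ker 1 a (hfx _ a)).mp ha)
  have hsurj : Function.Surjective (N.β 1) := by
    intro b
    obtain ⟨f, _, hf⟩ := N.spn b
    refine ⟨f 1, ?_⟩
    rw [← hf]
    exact (finsum_eq_single (fun ε => N.β ε (f ε)) 1 (fun ε hε => absurd (hsM ε) hε)).symm
  have hmul : ∀ a b : A, N.β 1 (a * b) = N.β 1 a * N.β 1 b := by
    intro a b
    have h := N.mul 1 1 a (hfx _ a) b (hfx _ b)
    rwa [mul_one] at h
  let e : A ≃ₗ[F] B := LinearEquiv.ofBijective (N.β 1) ⟨hinj, hsurj⟩
  have he : ∀ a, e a = N.β 1 a := fun a => rfl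
  have hmap : (Subalgebra.toSubmodule (Subalgebra.center F A)).map (e : A →ₗ[F] B) =
      Subalgebra.toSubmodule (Subalgebra.center F B) := by
    ext b
    constructor
    · rintro ⟨a, ha, rfl⟩
      have ha' : a ∈ Subalgebra.center F A := ha
      rw [Subalgebra.mem_center_iff] at ha'
      have h1 : e a ∈ Subalgebra.center F B := by
        rw [Subalgebra.mem_center_iff]
        intro b
        obtain ⟨c, hc⟩ := hsurj b
        rw [← hc, he, ← hmul, ← hmul, ha' c]
      exact h1
    · intro hb
      have hb' : b ∈ Subalgebra.center F B := hb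
      rw [Subalgebra.mem_center_iff] at hb'
      obtain ⟨a, ha⟩ := hsurj b
      refine ⟨a, ?_, ha⟩
      have h1 : a ∈ Subalgebra.center F A := by
        rw [Subalgebra.mem_center_iff]
        intro c
        refine hinj ?_
        rw [hmul, hmul, ha]
        exact hb' _
      exact h1
  have h2 := (e.submoduleMap (Subalgebra.toSubmodule (Subalgebra.center F A))).finrank_eq
  have h3 : Module.finrank F
      ↥((Subalgebra.toSubmodule (Subalgebra.center F A)).map (e : A →ₗ[F] B)) =
      Module.finrank F ↥(Subalgebra.toSubmodule (Subalgebra.center F B)) := by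
    rw [hmap]
  exact h2.trans h3

end Pool.Agent.PSS.S5.H27
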